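import Pool.Agent.N928.FG.Stm

set_option autoImplicit false

/-! # Continuity in the parameter -/

namespace Pool.Agent.N43.FG

open Pool.Agent.N928.FG Set

lemma s_cont (n : ℕ) : ∀ k : ℤ, Continuous fun β : ℝ => s β n k := by
  induction n with
  | zero =>
    intro k
    simp only [s]
    exact continuous_const
  | succ n ih =>
    intro k
    simp only [s]
    have h1 := ih k
    have h2 := ih (k - 1)
    have h3 := ih (k + 1)
    fun_prop

lemma an_cont (n : ℕ) : Continuous fun β : ℝ => an β n := by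
  unfold an
  refine continuous_finsetProd _ fun i _ => ?_
  unfold bet
  by_cases h : i = 0
  · simp only [h, if_true]
    exact continuous_const
  · simp only [h, if_false]
    exact s_cont n 0

lemma an_nonneg (h : S_S1) {β : ℝ} (h1 : 0 < β) (h2 : β ≤ 1 / 2) (n : ℕ) : 0 ≤ an β n := by
  unfold an
  refine Finset.prod_nonneg fun i _ => ?_
  unfold bet
  by_cases hi : i = 0
  · rw [if_pos hi]
    exact (h (1 / 2) (by norm_num) le_rfl n 0).1
  · rw [if_neg hi]
    exact (h β h1 h2 n 0).1

lemma an_le_one (h : S_S1) {β : ℝ} (h1 : 0 < β) (h2 : β ≤ 1 / 2) (n : ℕ) : an β n ≤ 1 := by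
  unfold an
  refine Finset.prod_le_one (fun i _ => ?_) (fun i _ => ?_)
  · unfold bet
    by_cases hi : i = 0
    · rw [if_pos hi]
      exact (h (1 / 2) (by norm_num) le_rfl n 0).1
    · rw [if_neg hi]
      exact (h β h1 h2 n 0).1
  · unfold bet
    by_cases hi : i = 0
    · rw [if_pos hi]
      exact (h (1 / 2) (by norm_num) le_rfl n 0).2.2.2
    · rw [if_neg hi]
      exact (h β h1 h2 n 0).2.2.2

theorem t_CONT : S_AB → S_S1 → S_CONT := by
  intro hAB hS b hb hb2
  obtain ⟨C, hC, h⟩ := hAB.2 b hb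
  have hsum3 : Summable fun n : ℕ => 1 / ((n : ℝ) ^ 3) :=
    Real.summable_one_div_nat_pow.2 (by norm_num)
  have hsum2 : Summable fun n : ℕ => 1 / ((n : ℝ) ^ 2) :=
    Real.summable_one_div_nat_pow.2 (by norm_num)
  constructor
  · have hu : Summable fun n : ℕ => (if n = 0 then (1 : ℝ) else 0) + C * (1 / ((n : ℝ) ^ 3)) :=
      (summable_of_ne_finset_zero (s := {0}) (fun n hn => by
        rw [if_neg (by simpa using hn)])).add (hsum3.mul_left C)
    refine continuousOn_tsum (fun n => (an_cont n).continuousOn) hu fun n β hβ => ?_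
    have hβ0 : 0 < β := hb.trans_le hβ.1
    rw [Real.norm_of_nonneg (an_nonneg hS hβ0 hβ.2 n)]
    rcases Nat.eq_zero_or_pos n with h0 | h0
    · rw [if_pos h0, h0]
      have := an_le_one hS hβ0 hβ.2 0
      simpa using this
    · rw [if_neg h0.ne', zero_add, mul_one_div]
      exact h β hβ.1 hβ.2 n h0
  · have hu : Summable fun n : ℕ => C * (1 / ((n : ℝ) ^ 2)) := hsum2.mul_left C
    refine continuousOn_tsum (fun n => (continuous_const.mul (an_cont n)).continuousOn) hu
      fun n β hβ => ?_
    have hβ0 : 0 < β := hb.trans_le hβ.1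
    rw [Real.norm_of_nonneg (mul_nonneg (Nat.cast_nonneg _) (an_nonneg hS hβ0 hβ.2 n))]
    rcases Nat.eq_zero_or_pos n with h0 | h0
    · rw [h0]
      simp
    · have hn : (0 : ℝ) < n := by exact_mod_cast h0
      calc (n : ℝ) * an β n ≤ n * (C / (n : ℝ) ^ 3) :=
            mul_le_mul_of_nonneg_left (h β hβ.1 hβ.2 n h0) hn.le
        _ = C * (1 / ((n : ℝ) ^ 2)) := by
            field_simp

end Pool.Agent.N43.FG
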